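import Pool.Agent.Helper78.Tok.Goals
import Pool.Agent.Helper69.Ram.PAR

/-!
# Packet PARB (helper78, TOKEN): arithmetic of the parameters
-/

namespace Pool.Agent.Helper59.Tok

open Pool.Agent.Helper65.LinSpace Pool.Agent.Helper78.Mpc Pool.Agent.Helper28.Ram
open Pool.Agent.Helper69.Ram Pool.Agent.Helper78.Tok Finset

theorem prod_cnt (m : Pool.Agent.Helper78.Tok.Mach) (p K : ℕ) :
    ∏ l ∈ range (K * (m.G + 2)), m.cnt p l =
    (2 ^ (m.σ * (m.b + 1)) * m.ny p * ((p - 1) * (2 * m.G + 3)) ^ (m.G + 1)) ^ K := by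
  induction K with
  | zero => simp
  | succ K ih =>
    rw [add_mul, one_mul, prod_range_add, ih, pow_succ]
    congr 1
    rw [show m.G + 2 = (m.G + 1) + 1 by ring, prod_range_succ', mul_comm]
    congr 1
    · unfold Pool.Agent.Helper78.Tok.Mach.cnt
      simp [ifz]
    · refine (prod_congr rfl (g := fun _ => (p - 1) * (2 * m.G + 3)) ?_).trans
        (by rw [prod_const, card_range, pow_succ])
      intro l hl
      have hl' := mem_range.1 hl
      unfold Pool.Agent.Helper78.Tok.Mach.cnt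
      have e : (K * (m.G + 1 + 1) + (l + 1)) % (m.G + 2) = l + 1 := by
        rw [show m.G + 1 + 1 = m.G + 2 by ring, mul_comm, Nat.mul_add_mod]
        exact Nat.mod_eq_of_lt (by omega)
      rw [e]
      simp [ifz]

theorem PARB : PARB_stmt := by
  intro x m hok hpar
  obtain ⟨hσ, hG, hb, -⟩ := hpar
  have hb0 := hok.hb
  have key : ∀ t : ℕ, t ≤ 5040 * (Nat.log 2 x + 1) → 2 ^ t ≤ CT x := by
    intro t ht
    refine (Nat.pow_le_pow_right (by norm_num) ht).trans ((two_pow_log_le x 5040).trans ?_)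
    exact Nat.pow_le_pow_right (by omega) (by norm_num)
  generalize Nat.log 2 x = n at *
  have hg := gR_pos n
  have hgn := gR_le n
  have h2 : m.σ * m.b ≤ gR n := by
    rw [hb]
    exact Nat.mul_div_le _ _
  have h3 : m.b ≤ gR n := by
    rw [hb]
    exact Nat.div_le_self _ _
  have hl := ll_pos n
  have hln := ll_le n
  have hsq := gR_sq n
  have hp := pR_le n
  have hp1 : 2 ≤ pR n := (pR_spec n).1.two_le
  have hW := Nat.div_mul_le_self n (ll n)
  have hsq2 : (gR n + 1) * (gR n + 1) * ll n ≤ 10 * (n + 1) := by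
    calc (gR n + 1) * (gR n + 1) * ll n ≤ (2 * (n / ll n) + 8) * ll n :=
          Nat.mul_le_mul_right _ hsq
      _ = 2 * (n / ll n * ll n) + 8 * ll n := by ring
      _ ≤ _ := by omega
  refine ⟨?_, ?_⟩
  · refine (Nat.pow_le_pow_left hp _).trans ?_
    rw [← pow_mul]
    apply key
    unfold JT
    calc (4 * ll n + 5) * (7 * (8 * ((gR n + 1) * (gR n + 1))))
        ≤ (9 * ll n) * (7 * (8 * ((gR n + 1) * (gR n + 1)))) :=
          Nat.mul_le_mul_right _ (by omega)
      _ = 504 * ((gR n + 1) * (gR n + 1) * ll n) := by ring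
      _ ≤ 5040 * (n + 1) := by omega
  · rw [prod_cnt, hG]
    have hny : m.ny (pR n) ≤ 2 ^ (12 * ll n) := by
      unfold Pool.Agent.Helper78.Tok.Mach.ny
      have h5 : m.b ≤ 2 ^ ll n := by
        have := lt_two_pow_ll n
        omega
      have h6 : m.b * (pR n - 1) ≤ 2 ^ ll n * 2 ^ (4 * ll n + 5) :=
        Nat.mul_le_mul h5 ((Nat.sub_le _ _).trans hp)
      have h7 : 1 ≤ m.b * (pR n - 1) := Nat.mul_pos hb0 (by omega)
      calc 3 * (m.b * (pR n - 1)) + 1 ≤ 4 * (m.b * (pR n - 1)) := by omega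
        _ ≤ 4 * (2 ^ ll n * 2 ^ (4 * ll n + 5)) := Nat.mul_le_mul_left _ h6
        _ = 2 ^ (5 * ll n + 7) := by
            rw [← pow_add, show (4 : ℕ) = 2 ^ 2 by norm_num, ← pow_add]
            congr 1
            ring
        _ ≤ _ := Nat.pow_le_pow_right (by norm_num) (by omega)
    have hA : 2 ^ (m.σ * (m.b + 1)) * m.ny (pR n) ≤ 2 ^ (2 * gR n + 12 * ll n) := by
      have e : m.σ * (m.b + 1) = m.σ * m.b + m.σ := by ring
      have h4 : m.σ * (m.b + 1) ≤ 2 * gR n := by omega
      rw [pow_add]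
      exact Nat.mul_le_mul (Nat.pow_le_pow_right (by norm_num) h4) hny
    have hB : (pR n - 1) * (2 * gR n + 3) ≤ 2 ^ (13 * ll n) := by
      have h4 : 2 * gR n + 3 ≤ 2 ^ (ll n + 3) := by
        have := lt_two_pow_ll n
        rw [pow_add]
        omega
      calc (pR n - 1) * (2 * gR n + 3) ≤ 2 ^ (4 * ll n + 5) * 2 ^ (ll n + 3) :=
            Nat.mul_le_mul ((Nat.sub_le _ _).trans hp) h4
        _ = 2 ^ (5 * ll n + 8) := by
            rw [← pow_add]
            congr 1
            ring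
        _ ≤ _ := Nat.pow_le_pow_right (by norm_num) (by omega)
    have hC : 2 ^ (m.σ * (m.b + 1)) * m.ny (pR n) *
        ((pR n - 1) * (2 * gR n + 3)) ^ (gR n + 1) ≤
        2 ^ (2 * gR n + 12 * ll n + 13 * ll n * (gR n + 1)) := by
      refine (Nat.mul_le_mul hA (Nat.pow_le_pow_left hB (gR n + 1))).trans (le_of_eq ?_)
      rw [← pow_mul, ← pow_add]
    refine (Nat.pow_le_pow_left hC _).trans ?_
    rw [← pow_mul]
    apply key
    have h7 : (2 * gR n + 12 * ll n + 13 * ll n * (gR n + 1)) * gR n ≤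
        27 * ((gR n + 1) * (gR n + 1) * ll n) := by
      have h8 : 2 * gR n ≤ 2 * (gR n + 1) * ll n := by nlinarith
      have h9 : 12 * ll n ≤ 12 * (gR n + 1) * ll n := by nlinarith
      calc (2 * gR n + 12 * ll n + 13 * ll n * (gR n + 1)) * gR n
          ≤ (2 * (gR n + 1) * ll n + 12 * (gR n + 1) * ll n + 13 * ll n * (gR n + 1)) *
              (gR n + 1) :=
            Nat.mul_le_mul (Nat.add_le_add_right (Nat.add_le_add h8 h9) _) (by omega)
        _ = _ := by ring
    omega

end Pool.Agent.Helper59.Tok
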